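import Pool.Agent.H91.OP.Main

/-!
# Extension of the base field
-/

set_option autoImplicit false

namespace Pool.Agent.H91.OP

open NumberField IsDedekindDomain Filter Topology Polynomial Pool.Agent.W353.NF
  Pool.Agent.W401.Cheb Pool.Agent.Q5.BR Pool.Agent.Q5.VL Pool.Agent.Q5.WL
open Pool.Agent.W353.EF (IsFrobenius LFun cone)

section
variable {K : Type} [Field K] [NumberField K] {F : Type} [Field F] [NumberField F] [Algebra K F]

theorem cone_baseChange {q : ℕ} (X : Set (MvPolynomial (Fin q) (𝓞 K))) {κ : Type} [Field κ]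
    (φ : 𝓞 F →+* κ) : cone (baseChange X F) φ = cone X (φ.comp (algebraMap (𝓞 K) (𝓞 F))) := by
  unfold cone baseChange
  refine Nat.card_congr (Equiv.subtypeEquivRight fun u => ?_)
  simp only [Set.forall_mem_image, MvPolynomial.eval₂_map]

theorem isFrobenius_baseChange {q : ℕ} (X : Set (MvPolynomial (Fin q) (𝓞 K))) (d i : ℕ)
    (v : HeightOneSpectrum (𝓞 F)) {N : ℕ} (α : Fin N → ℂ) :
    IsFrobenius (baseChange X F) d i v α ↔ IsFrobenius X d i v α := by
  constructor
  · rintro ⟨β, h1, h2, h3⟩
    refine ⟨β, h1, h2, fun κ _ _ φ e hk hc => ?_⟩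
    have h4 := h3 κ φ e hk hc
    rw [cone_baseChange] at h4
    exact h4
  · rintro ⟨β, h1, h2, h3⟩
    refine ⟨β, h1, h2, fun κ _ _ φ e hk hc => ?_⟩
    rw [cone_baseChange]
    exact h3 κ φ e hk hc

theorem poleOrder_baseChange {q : ℕ} (X : Set (MvPolynomial (Fin q) (𝓞 K))) (d m N : ℕ) (r : ℤ) :
    PoleOrder (baseChange X F) d m N F r ↔ PoleOrder X d m N F r := by
  unfold PoleOrder EulerFactors
  simp only [isFrobenius_baseChange]

theorem rank_restrict {V : Type} [AddCommGroup V] [Module ℚ V]
    (ρ : Representation ℚ Gal(AlgebraicClosure K/K) V) : rank (restrict ρ F) F = rank ρ F := by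
  have _ : Algebra.IsAlgebraic K (AlgebraicClosure F) := Algebra.IsAlgebraic.trans K F _
  have _ : IsAlgClosure K (AlgebraicClosure F) := ⟨inferInstance, inferInstance⟩
  let θ : AlgebraicClosure F ≃ₐ[K] AlgebraicClosure K :=
    IsAlgClosure.equiv K (AlgebraicClosure F) (AlgebraicClosure K)
  have hgal : ∀ (σ : Gal(AlgebraicClosure F/F)) (y : AlgebraicClosure F),
      galInclusion (K := K) F σ (θ y) = θ (σ y) := by
    intro σ y
    change θ ((AlgEquiv.restrictScalars K σ) (θ.symm (θ y))) = θ (σ y)
    rw [θ.symm_apply_apply]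
    rfl
  let i : F →ₐ[K] AlgebraicClosure K :=
    (θ : AlgebraicClosure F →ₐ[K] AlgebraicClosure K).comp
      (IsScalarTower.toAlgHom K F (AlgebraicClosure F))
  have hi : ∀ x, i x = θ (algebraMap F (AlgebraicClosure F) x) := fun _ => rfl
  have h1 : invariants (restrict ρ F) (IsAlgClosed.lift : F →ₐ[F] AlgebraicClosure F) =
      invariants ρ i := by
    ext v
    constructor
    · intro h σ hσ
      let τ : AlgebraicClosure F ≃ₐ[F] AlgebraicClosure F :=
        { (θ.trans (σ.trans θ.symm)) with
          commutes' := fun x => by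
            change θ.symm (σ (θ (algebraMap F (AlgebraicClosure F) x))) =
              algebraMap F (AlgebraicClosure F) x
            rw [← hi, hσ x, hi, θ.symm_apply_apply] }
      have hτ : galInclusion (K := K) F τ = σ := by
        apply AlgEquiv.ext
        intro y
        obtain ⟨z, rfl⟩ := θ.surjective y
        rw [hgal]
        change θ (θ.symm (σ (θ z))) = σ (θ z)
        rw [θ.apply_symm_apply]
      have h2 := h τ fun x => by
        have h3 : (IsAlgClosed.lift : F →ₐ[F] AlgebraicClosure F) x =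
            algebraMap F (AlgebraicClosure F) x :=
          (IsAlgClosed.lift : F →ₐ[F] AlgebraicClosure F).commutes x
        rw [h3]
        exact τ.commutes x
      change ρ (galInclusion F τ) v = v at h2
      rwa [hτ] at h2
    · intro h σ _
      change ρ (galInclusion F σ) v = v
      apply h
      intro x
      rw [hi, hgal, σ.commutes]
  have h2 : rank ρ F = Module.finrank ℚ (invariants ρ i) := by
    rw [rank_eq, Pool.Agent.Q5.VL.rk_eq (ρ := ρ) i, invariants_eq]
  rw [h2, ← h1]
  rfl

/-- **Extension of the base field.** -/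
theorem tate_baseChange {q : ℕ} (X : Set (MvPolynomial (Fin q) (𝓞 K))) (d m N : ℕ) {V : Type}
    [AddCommGroup V] [Module ℚ V] (ρ : Representation ℚ Gal(AlgebraicClosure K/K) V) :
    Tate (baseChange X F) d m N (restrict ρ F) F ↔ Tate X d m N ρ F := by
  unfold Tate
  rw [rank_restrict, poleOrder_baseChange]

end

/-- **Classes of varieties.** -/
theorem tateFor_of_few {𝒱 : VarietyClass} (h𝒱 : ClosedUnderExtension 𝒱) (b : ℕ)
    (h : ∀ (F : Type) [Field F] [NumberField F], RigidOneSmall b F → TateFor 𝒱 F)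
    (K : Type) [Field K] [NumberField K] : TateFor 𝒱 K := by
  intro q X d m N V _ _ ρ hX
  obtain ⟨hmd, hV, hF⟩ := h𝒱 K q X d m N V ρ hX
  refine tate_of_few (X := X) (N := N) (ρ := ρ) hmd (b := b) ?_ K
  intro F _ _ _ hFb
  exact (tate_baseChange X d m N ρ).1 (h F hFb q _ d m N V _ (hF F))

end Pool.Agent.H91.OP
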