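import Pool.Agent.H26.Lib.R_seed8.W353.EF.Defs
import Pool.Agent.H26.Lib.R_pool_sql_team_seeded_3997aac3.Q5.BR.Rel
import Mathlib.NumberTheory.NumberField.Basic
import Mathlib.RepresentationTheory.Basic
import Mathlib.FieldTheory.IsAlgClosed.AlgebraicClosure

/-!
# Poles on the real axis and number fields with at most one small prime: definitions

`X` is a smooth projective variety of dimension `d` over a number field `K`, given by homogeneous
equations with coefficients in the ring of integers, and `L(H^{2m}(X_F), s)` is, for a number field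
`F ⊇ K`, the Euler product over the primes of `F` outside of an arbitrary finite set.
-/

set_option autoImplicit false

namespace Pool.Agent.H91.OP

open NumberField IsDedekindDomain Filter Topology Polynomial
open Pool.Agent.W353.EF (LFun IsFrobenius)

section
variable {K : Type} [Field K] [NumberField K]

/-- The space of the vectors of `V` fixed by all automorphisms of the algebraic closure of `K` which are
trivial on the image of `F` (for the embedding `i`). -/
def invariants {V : Type} [AddCommGroup V] [Module ℚ V]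
    (ρ : Representation ℚ Gal(AlgebraicClosure K/K) V) {F : Type} [Field F] [Algebra K F]
    (i : F →ₐ[K] AlgebraicClosure K) : Submodule ℚ V where
  carrier := {v | ∀ σ : Gal(AlgebraicClosure K/K), (∀ x, σ (i x) = i x) → ρ σ v = v}
  zero_mem' := fun σ _ => map_zero _
  add_mem' := fun {a b} ha hb σ hσ => by rw [map_add, ha σ hσ, hb σ hσ]
  smul_mem' := fun c x hx σ hσ => by rw [map_smul, hx σ hσ]

/-- The dimension of the space of the vectors of `V` fixed by the absolute Galois group of `F`. For
`V = A^m(X) ⊗ ℚ`, the classes of the cycles over the algebraic closure, it is the rank of the group of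
the classes over `F`. -/
noncomputable def rank {V : Type} [AddCommGroup V] [Module ℚ V]
    (ρ : Representation ℚ Gal(AlgebraicClosure K/K) V) (F : Type) [Field F] [Algebra K F]
    [Algebra.IsAlgebraic K F] : ℕ :=
  Module.finrank ℚ (invariants ρ (IsAlgClosed.lift : F →ₐ[K] AlgebraicClosure K))

/-- `B` is the system of the Euler factors of `L(H^i(X_F), s)`: `B_v(z) = ∏ (1 - α_j z)` for `v ∉ S`,
where `α_1, …, α_N` are the eigenvalues of the geometric Frobenius at `v` on `H^i(X)`, and `B_v = 1` for
`v ∈ S`. -/
def EulerFactors {n : ℕ} (X : Set (MvPolynomial (Fin n) (𝓞 K))) (d i N : ℕ) (F : Type) [Field F]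
    [NumberField F] [Algebra K F] (S : Finset (HeightOneSpectrum (𝓞 F)))
    (B : HeightOneSpectrum (𝓞 F) → ℂ[X]) : Prop :=
  (∀ v ∉ S, ∃ α : Fin N → ℂ, IsFrobenius X d i v α ∧
    ∀ z : ℂ, (B v).eval z = ∏ j, (1 - α j * z)) ∧ ∀ v ∈ S, B v = 1

/-- `(s - s₀)^r L(s)` has a finite nonzero limit as `s → s₀` along the reals from the right. -/
def OrderFromRight (L : ℂ → ℂ) (s₀ : ℝ) (r : ℤ) : Prop :=
  ∃ c : ℂ, c ≠ 0 ∧ Tendsto (fun s : ℝ => ((s : ℂ) - s₀) ^ r * L s) (𝓝[>] s₀) (𝓝 c)

/-- The pole of `L(H^{2m}(X_F), s)` at `s = m + 1` has order `r`, for the Euler products over the primes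
outside of arbitrary finite sets. -/
def PoleOrder {n : ℕ} (X : Set (MvPolynomial (Fin n) (𝓞 K))) (d m N : ℕ) (F : Type) [Field F]
    [NumberField F] [Algebra K F] (r : ℤ) : Prop :=
  ∀ (S : Finset (HeightOneSpectrum (𝓞 F))) (B : HeightOneSpectrum (𝓞 F) → ℂ[X]),
    EulerFactors X d (2 * m) N F S B → OrderFromRight (LFun B) (m + 1) r

/-- Tate's conjecture for `X_F`: the order of the pole of `L(H^{2m}(X_F), s)` at `s = m + 1` is the
rank over `F`. -/
def Tate {n : ℕ} (X : Set (MvPolynomial (Fin n) (𝓞 K))) (d m N : ℕ) {V : Type} [AddCommGroup V]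
    [Module ℚ V] (ρ : Representation ℚ Gal(AlgebraicClosure K/K) V) (F : Type) [Field F]
    [NumberField F] [Algebra K F] : Prop :=
  PoleOrder X d m N F (rank ρ F)

/-- Tate's conjecture for all `X_F`, `F` a finite extension of `K` in the class `P`. -/
def TateOver {n : ℕ} (X : Set (MvPolynomial (Fin n) (𝓞 K))) (d m N : ℕ) {V : Type} [AddCommGroup V]
    [Module ℚ V] (ρ : Representation ℚ Gal(AlgebraicClosure K/K) V)
    (P : ∀ (F : Type) [Field F] [NumberField F], Prop) : Prop :=
  ∀ (F : Type) [Field F] [NumberField F] [Algebra K F], P F → Tate X d m N ρ F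

/-- The variety `X_F`. -/
def baseChange {n : ℕ} (X : Set (MvPolynomial (Fin n) (𝓞 K))) (F : Type) [Field F] [NumberField F]
    [Algebra K F] : Set (MvPolynomial (Fin n) (𝓞 F)) :=
  MvPolynomial.map (algebraMap (𝓞 K) (𝓞 F)) '' X

/-- The inclusion of the absolute Galois group of `F` into the one of `K`, for an isomorphism of the
algebraic closures. -/
noncomputable def galInclusion (F : Type) [Field F] [Algebra K F] [Algebra.IsAlgebraic K F] :
    Gal(AlgebraicClosure F/F) →* Gal(AlgebraicClosure K/K) :=
  have : Algebra.IsAlgebraic K (AlgebraicClosure F) := Algebra.IsAlgebraic.trans K F _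
  have : IsAlgClosure K (AlgebraicClosure F) := ⟨inferInstance, inferInstance⟩
  (AlgEquiv.autCongr (IsAlgClosure.equiv K (AlgebraicClosure F) (AlgebraicClosure K))).toMonoidHom.comp
    (AlgEquiv.restrictScalarsHom K)

/-- The restriction of a representation to the absolute Galois group of `F`. -/
noncomputable def restrict {V : Type} [AddCommGroup V] [Module ℚ V]
    (ρ : Representation ℚ Gal(AlgebraicClosure K/K) V) (F : Type) [Field F] [Algebra K F]
    [Algebra.IsAlgebraic K F] : Representation ℚ Gal(AlgebraicClosure F/F) V :=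
  ρ.comp (galInclusion F)

end

/-- The number field `F` has at most one prime ideal of norm `≤ b`. -/
def AtMostOneSmallPrime (b : ℕ) (F : Type) [Field F] [NumberField F] : Prop :=
  ∀ w w' : HeightOneSpectrum (𝓞 F),
    Ideal.absNorm w.asIdeal ≤ b → Ideal.absNorm w'.asIdeal ≤ b → w = w'

/-- The number field `F` has no automorphism except the identity. -/
def NoAutomorphisms (F : Type) [Field F] : Prop :=
  ∀ (τ : F ≃+* F) (x : F), τ x = x

/-- `F` has no automorphism except the identity, and at most one prime ideal of norm `≤ b`. -/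
def RigidOneSmall (b : ℕ) (F : Type) [Field F] [NumberField F] : Prop :=
  NoAutomorphisms F ∧ AtMostOneSmallPrime b F

section
variable {K : Type} [Field K] [NumberField K] {ι : Type} [Fintype ι]

/-- The number of the `K`-embeddings of `F` in the algebraic closure of `K` which are fixed by `σ`. -/
noncomputable def fixedEmbeddings (K F : Type) [Field K] [Field F] [Algebra K F]
    (σ : Gal(AlgebraicClosure K/K)) : ℕ :=
  Nat.card {i : F →ₐ[K] AlgebraicClosure K // ∀ x, σ (i x) = i x}

/-- `∑ a_j · fixedEmbeddings F_j σ = 1` for all `σ`, for extension fields `F_j = (Y j).F` of `K`. -/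
def CharacterRelation (Y : ι → Pool.Agent.Q5.BR.Ext K) (a : ι → ℤ) : Prop :=
  ∀ σ : Gal(AlgebraicClosure K/K), ∑ j, a j * (fixedEmbeddings K (Y j).F σ : ℤ) = 1

/-- The ranks are additive: `rank over K = ∑ a_j (rank over F_j)` for every representation. -/
def RankRelation (Y : ι → Pool.Agent.Q5.BR.Ext K) (a : ι → ℤ) : Prop :=
  ∀ (V : Type) [AddCommGroup V] [Module ℚ V] [FiniteDimensional ℚ V]
    (ρ : Representation ℚ Gal(AlgebraicClosure K/K) V),
    (rank ρ K : ℤ) = ∑ j, a j * rank ρ (Y j).F

/-- The orders of the poles are additive: if the pole of `L(H^{2m}(X_{F_j}), s)` at `m + 1` has the order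
`r_j` for all `j`, then the one of `L(H^{2m}(X), s)` has the order `∑ a_j r_j`. -/
def PoleRelation (Y : ι → Pool.Agent.Q5.BR.Ext K) (a : ι → ℤ) : Prop :=
  ∀ (q : ℕ) (X : Set (MvPolynomial (Fin q) (𝓞 K))) (d m N : ℕ), m ≤ d →
    ∀ r : ι → ℤ, (∀ j, PoleOrder X d m N (Y j).F (r j)) →
      PoleOrder X d m N K (∑ j, a j * r j)

end

/-- Classes of varieties over number fields, with dimension `d`, a codimension `m`, a Betti number
`N` and a representation `V` of the absolute Galois group. -/
def VarietyClass : Type 1 :=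
  ∀ (K : Type) [Field K] [NumberField K] (q : ℕ) (_ : Set (MvPolynomial (Fin q) (𝓞 K)))
    (_ _ _ : ℕ) (V : Type) [AddCommGroup V] [Module ℚ V]
    (_ : Representation ℚ Gal(AlgebraicClosure K/K) V), Prop

/-- The class is closed under the extension of the base field, and `V` has finite dimension and
`m ≤ d`. -/
def ClosedUnderExtension (𝒱 : VarietyClass) : Prop :=
  ∀ (K : Type) [Field K] [NumberField K] (q : ℕ) (X : Set (MvPolynomial (Fin q) (𝓞 K)))
    (d m N : ℕ) (V : Type) [AddCommGroup V] [Module ℚ V]
    (ρ : Representation ℚ Gal(AlgebraicClosure K/K) V), 𝒱 K q X d m N V ρ →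
      m ≤ d ∧ FiniteDimensional ℚ V ∧ ∀ (F : Type) [Field F] [NumberField F] [Algebra K F],
        𝒱 F q (baseChange X F) d m N V (restrict ρ F)

/-- Tate's conjecture for the varieties in `𝒱` over the number field `K`. -/
def TateFor (𝒱 : VarietyClass) (K : Type) [Field K] [NumberField K] : Prop :=
  ∀ (q : ℕ) (X : Set (MvPolynomial (Fin q) (𝓞 K))) (d m N : ℕ) (V : Type) [AddCommGroup V]
    [Module ℚ V] (ρ : Representation ℚ Gal(AlgebraicClosure K/K) V), 𝒱 K q X d m N V ρ →
      Tate X d m N ρ K

end Pool.Agent.H91.OP
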