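import Pool.Agent.H91.OP.Real

/-!
# The orders of the poles along the real axis in a relation
-/

set_option autoImplicit false

namespace Pool.Agent.H91.OP

open NumberField IsDedekindDomain Filter Topology Polynomial Pool.Agent.W353.NF
  Pool.Agent.W401.Cheb Pool.Agent.Q5.BR Pool.Agent.Q5.VL Pool.Agent.Q5.WL
open Pool.Agent.W353.EF (IsFrobenius LFun cone)

/-- `r` is the order of the pole along the real axis -/
def RealPoleZ (i : ℕ) {F : Type} [Field F] [NumberField F] (B : HeightOneSpectrum (𝓞 F) → ℂ[X])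
    (r : ℤ) : Prop :=
  ∃ c : ℂ, c ≠ 0 ∧ Tendsto (fun ε : ℝ => (ε : ℂ) ^ r * LFun B ((i : ℂ) / 2 + 1 + ε)) (𝓝[>] 0) (𝓝 c)

section
variable {K₀ K : Type} [Field K₀] [Field K] [NumberField K] [Algebra K₀ K] {n : ℕ}
  {X : Set (MvPolynomial (Fin n) (𝓞 K₀))} {d i N : ℕ}

theorem realPoleZ_iff (hi : i ≤ 2 * d) {S₀ : Finset (HeightOneSpectrum (𝓞 K))}
    {B₀ : HeightOneSpectrum (𝓞 K) → ℂ[X]} (hB₀ : IsLoc X d i N S₀ B₀) (r : ℤ) :
    RealPoleZ i B₀ r ↔ ∃ ℓ : ℝ, Tendsto (fun ε : ℝ =>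
      Real.log ‖LFun B₀ ((i : ℂ) / 2 + 1 + ε)‖ + r * Real.log ε) (𝓝[>] 0) (𝓝 ℓ) := by
  have hpos : ∀ ε : ℝ, 0 < ε → LFun B₀ ((i : ℂ) / 2 + 1 + ε) ≠ 0 ∧
      LFun B₀ ((i : ℂ) / 2 + 1 + ε) = (‖LFun B₀ ((i : ℂ) / 2 + 1 + ε)‖ : ℂ) := by
    intro ε hε
    have h1 : ((i : ℂ) / 2 + 1 + ε) = (((i : ℝ) / 2 + 1 + ε : ℝ) : ℂ) := by push_cast; rfl
    rw [h1]
    refine ⟨(hB₀.good ?_).ne_zero, hB₀.LFun_pos hi (by linarith)⟩
    rw [Complex.ofReal_re]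
    linarith
  constructor
  · rintro ⟨c, hc, h⟩
    refine ⟨Real.log ‖c‖, (h.norm.log (norm_ne_zero_iff.2 hc)).congr' ?_⟩
    filter_upwards [self_mem_nhdsWithin] with ε hε
    have hε' : (0 : ℝ) < ε := hε
    rw [norm_mul, norm_zpow, Complex.norm_real, Real.norm_of_nonneg hε'.le, Real.log_mul
      (zpow_ne_zero _ hε'.ne') (norm_ne_zero_iff.2 (hpos ε hε').1), Real.log_zpow, add_comm]
  · rintro ⟨ℓ, h⟩
    refine ⟨((Real.exp ℓ : ℝ) : ℂ), by exact_mod_cast (Real.exp_pos ℓ).ne', ?_⟩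
    have h1 : Tendsto (fun ε : ℝ => ((Real.exp (Real.log ‖LFun B₀ ((i : ℂ) / 2 + 1 + ε)‖ +
        r * Real.log ε) : ℝ) : ℂ)) (𝓝[>] 0) (𝓝 ((Real.exp ℓ : ℝ) : ℂ)) :=
      (Complex.continuous_ofReal.tendsto _).comp ((Real.continuous_exp.tendsto _).comp h)
    refine h1.congr' ?_
    filter_upwards [self_mem_nhdsWithin] with ε hε
    have hε' : (0 : ℝ) < ε := hε
    obtain ⟨h2, h3⟩ := hpos ε hε'
    rw [Real.exp_add, Real.exp_log (norm_pos_iff.2 h2), ← Real.log_zpow, Real.exp_log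
      (zpow_pos hε' _), Complex.ofReal_mul, ← h3, Complex.ofReal_zpow, mul_comm]

/-- **The orders in a relation with coefficient one.** -/
theorem order_rel {ι : Type} [Fintype ι] {Y : ι → Ext K} [∀ j, Algebra K₀ (Y j).F]
    [∀ j, IsScalarTower K₀ K (Y j).F] {nn : ι → ℤ}
    (hrel : ∀ σ : GK K, ∑ j, nn j * (fixn K (Y j).F σ : ℤ) = 1)
    (hi : i ≤ 2 * d) (r : ι → ℤ)
    (h : ∀ j, ∀ (S : Finset (HeightOneSpectrum (𝓞 (Y j).F)))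
      (B : HeightOneSpectrum (𝓞 (Y j).F) → ℂ[X]), IsLoc X d i N S B → RealPoleZ i B (r j))
    {S₀ : Finset (HeightOneSpectrum (𝓞 K))}
    {B₀ : HeightOneSpectrum (𝓞 K) → ℂ[X]} (hB₀ : IsLoc X d i N S₀ B₀) :
    RealPoleZ i B₀ (∑ j, nn j * r j) := by
  choose T B hB using fun j => exists_loc_up (K := K) hB₀.ae (Y j).F
  obtain ⟨ℓ₀, h1⟩ := log_rel hrel hi hB₀ hB
  choose ℓ h2 using fun j => (realPoleZ_iff hi (hB j) _).1 (h j (T j) (B j) (hB j))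
  rw [realPoleZ_iff hi hB₀]
  have h3 : Tendsto (fun ε : ℝ => ∑ j, (nn j : ℝ) *
      (Real.log ‖LFun (B j) ((i : ℂ) / 2 + 1 + ε)‖ + (r j : ℝ) * Real.log ε)) (𝓝[>] 0)
      (𝓝 (∑ j, (nn j : ℝ) * ℓ j)) := tendsto_finsetSum _ fun j _ => (h2 j).const_mul _
  refine ⟨_, (h1.add h3).congr fun ε => ?_⟩
  have h6 : ∑ j, (nn j : ℝ) * (Real.log ‖LFun (B j) ((i : ℂ) / 2 + 1 + ε)‖ +
      (r j : ℝ) * Real.log ε) = ∑ j, (nn j : ℝ) *
      Real.log ‖LFun (B j) ((i : ℂ) / 2 + 1 + ε)‖ + (∑ j, (nn j : ℝ) * r j) * Real.log ε := by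
    rw [Finset.sum_mul, ← Finset.sum_add_distrib]
    exact Finset.sum_congr rfl fun j _ => by ring
  rw [h6]
  push_cast
  ring

end

end Pool.Agent.H91.OP
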