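import Pool.Agent.H91.OP.Law
import Pool.Agent.H91.OP.Defs
import Pool.Agent.H26.K4.Tower

/-!
# Poles on the real axis and number fields with at most one small prime
-/

set_option autoImplicit false

namespace Pool.Agent.H91.OP

open NumberField IsDedekindDomain Filter Topology Polynomial Pool.Agent.W353.NF
  Pool.Agent.W401.Cheb Pool.Agent.Q5.BR Pool.Agent.Q5.VL Pool.Agent.Q5.WL
open Pool.Agent.W353.EF (IsFrobenius LFun cone)

section
variable {K : Type} [Field K] [NumberField K]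

theorem invariants_eq {V : Type} [AddCommGroup V] [Module ℚ V]
    (ρ : Representation ℚ Gal(AlgebraicClosure K/K) V) {F : Type} [Field F] [Algebra K F]
    (i : F →ₐ[K] AlgebraicClosure K) : invariants ρ i = fixV ρ i := by
  ext v
  constructor
  · intro h σ hσ
    exact h σ fun x => congrArg (fun f => f x) hσ
  · intro h σ hσ
    exact h σ (AlgHom.ext hσ)

theorem rank_eq {V : Type} [AddCommGroup V] [Module ℚ V]
    (ρ : Representation ℚ Gal(AlgebraicClosure K/K) V) (F : Type) [Field F] [NumberField F]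
    [Algebra K F] : rank ρ F = Pool.Agent.Q5.VL.rk ρ F := by
  unfold rank Pool.Agent.Q5.VL.rk
  rw [invariants_eq]

theorem orderFromRight_iff {F : Type} [Field F] [NumberField F]
    (B : HeightOneSpectrum (𝓞 F) → ℂ[X]) (m : ℕ) (r : ℤ) :
    OrderFromRight (LFun B) (m + 1) r ↔ RealPoleZ (2 * m) B r := by
  unfold OrderFromRight RealPoleZ
  have h1 : (((2 * m : ℕ) : ℂ) / 2 + 1) = (m : ℂ) + 1 := by
    push_cast
    ring
  have h2 : (fun ε : ℝ => (ε : ℂ) ^ r *
      LFun B (((2 * m : ℕ) : ℂ) / 2 + 1 + ε)) = (fun s : ℝ => ((s : ℂ) - ((m : ℝ) + 1 : ℝ)) ^ r *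
        LFun B s) ∘ (fun ε : ℝ => (m : ℝ) + 1 + ε) := by
    funext ε
    simp only [Function.comp]
    have h3 : (((m : ℝ) + 1 + ε : ℝ) : ℂ) = (m : ℂ) + 1 + ε := by push_cast; ring
    have h4 : (((m : ℝ) + 1 : ℝ) : ℂ) = (m : ℂ) + 1 := by push_cast; ring
    rw [h1, h3, h4, add_sub_cancel_left]
  have h4 : 𝓝[>] ((m : ℝ) + 1) = Filter.map (fun ε : ℝ => (m : ℝ) + 1 + ε) (𝓝[>] 0) := by
    have h5 := map_add_left_nhdsGT (c := (m : ℝ) + 1) (a := (0 : ℝ))
    rw [add_zero] at h5
    exact h5.symm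
  rw [h2, h4]
  simp only [Filter.tendsto_map'_iff]

theorem poleOrder_iff {q : ℕ} {X : Set (MvPolynomial (Fin q) (𝓞 K))} {d m N : ℕ} {F : Type}
    [Field F] [NumberField F] [Algebra K F] {r : ℤ} : PoleOrder X d m N F r ↔
      ∀ (S : Finset (HeightOneSpectrum (𝓞 F))) (B : HeightOneSpectrum (𝓞 F) → ℂ[X]),
        IsLoc X d (2 * m) N S B → RealPoleZ (2 * m) B r := by
  unfold PoleOrder
  simp only [orderFromRight_iff]
  rfl

end

/-- **The relation.** -/
theorem exists_relation (K : Type) [Field K] [NumberField K] (b : ℕ) :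
    ∃ (ι : Type) (_ : Fintype ι) (Y : ι → Ext K) (a : ι → ℤ),
      (∀ j, RigidOneSmall b (Y j).F) ∧
      ∀ σ : GK K, ∑ j, a j * (fixn K (Y j).F σ : ℤ) = 1 := by
  obtain ⟨ι, _, Y, n, h1, h2, h3⟩ := Pool.Agent.H26.K4.rigid_small_relation K b
  exact ⟨ι, inferInstance, Y, n, fun j => ⟨h1 j, h2 j⟩, h3⟩

section
variable {K : Type} [Field K] [NumberField K]

theorem fixedEmbeddings_eq (F : Type) [Field F] [NumberField F] [Algebra K F] (σ : GK K) :
    fixedEmbeddings K F σ = fixn K F σ := by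
  unfold fixedEmbeddings fixn
  refine Nat.card_congr (Equiv.subtypeEquivRight fun i => ?_)
  rw [act_apply]
  exact ⟨fun h => AlgHom.ext h, fun h x => congrArg (fun f => f x) h⟩

/-- **The ranks and the orders in the relation.** -/
theorem relations {ι : Type} [Fintype ι] {Y : ι → Ext K} {a : ι → ℤ}
    (hrel : ∀ σ : GK K, ∑ j, a j * (fixn K (Y j).F σ : ℤ) = 1) :
    CharacterRelation Y a ∧ RankRelation Y a ∧ PoleRelation Y a := by
  refine ⟨?_, ?_, ?_⟩
  · intro σ
    rw [← hrel σ]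
    exact Finset.sum_congr rfl fun j _ => by rw [fixedEmbeddings_eq]
  · intro V _ _ _ ρ
    have h1 := rank_relation_up (F := K) ρ (Y := Y) (n := a) (m := 1) hrel
      (fun _ _ => inferInstance)
    rw [one_mul] at h1
    rw [rank_eq, ← h1]
    exact Finset.sum_congr rfl fun F _ => by rw [rank_eq]
  · intro q X d m N hmd r hr
    rw [poleOrder_iff]
    intro T B hB
    exact order_rel (K₀ := K) (K := K) (Y := Y) (nn := a) (X := X) (d := d)
      (i := 2 * m) (N := N) hrel (by omega) r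
      (fun j => poleOrder_iff.1 (hr j)) hB

/-- **Extensions.** -/
theorem tate_of_few {q : ℕ} {X : Set (MvPolynomial (Fin q) (𝓞 K))} {d m N : ℕ} (hmd : m ≤ d)
    {V : Type} [AddCommGroup V] [Module ℚ V] [FiniteDimensional ℚ V]
    {ρ : Representation ℚ Gal(AlgebraicClosure K/K) V} {b : ℕ}
    (h : TateOver X d m N ρ (RigidOneSmall b)) (F : Type) [Field F] [NumberField F]
    [Algebra K F] : Tate X d m N ρ F := by
  obtain ⟨ι, _, Y, n, hS, hrel⟩ := exists_relation F b
  let _ : ∀ j, Algebra K (Y j).F := fun j =>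
    ((algebraMap F (Y j).F).comp (algebraMap K F)).toAlgebra
  have _ : ∀ j, IsScalarTower K F (Y j).F := fun j =>
    IsScalarTower.of_algebraMap_eq fun _ => rfl
  have h1 := rank_relation_up (F := F) ρ (Y := Y) (n := n) (m := 1) hrel
    (fun _ _ => inferInstance)
  unfold Tate
  rw [poleOrder_iff]
  intro T B hB
  have h2 := order_rel (K₀ := K) (K := F) (Y := Y) (nn := n) (X := X) (d := d)
    (i := 2 * m) (N := N) hrel (by omega) (fun j => (Pool.Agent.Q5.VL.rk ρ (Y j).F : ℤ))
    (fun j => by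
      have h3 := h (Y j).F (hS j)
      unfold Tate at h3
      rw [rank_eq] at h3
      exact poleOrder_iff.1 h3) hB
  rw [h1, one_mul] at h2
  rw [rank_eq]
  exact h2

end

end Pool.Agent.H91.OP
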