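import Pool.Agent.H26.Lib.R_pool_sql_team_seeded_3997aac3.Q5.VL.Tate

/-! The Euler products of a projective variety on the real axis. -/

set_option autoImplicit false
set_option linter.unusedSectionVars false

namespace Pool.Agent.Q5.WL

open NumberField IsDedekindDomain Filter Topology Polynomial Pool.Agent.W353.NF
  Pool.Agent.W401.Cheb Pool.Agent.Q5.BR Pool.Agent.Q5.VL
open Pool.Agent.W353.EF (IsFrobenius LFun cone)

section
variable {K₀ F : Type} [Field K₀] [Field F] [NumberField F] [Algebra K₀ F] {n : ℕ}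
  {X : Set (MvPolynomial (Fin n) (𝓞 K₀))} {d i N : ℕ}

/-- the eigenvalues are closed under conjugation -/
theorem frob_conj {w : HeightOneSpectrum (𝓞 F)} {α : Fin N → ℂ} (h : IsFrobenius X d i w α) :
    IsFrobenius X d i w (fun j => (starRingEnd ℂ) (α j)) := by
  obtain ⟨β, h1, h2, h3⟩ := h
  refine ⟨fun k => (β k).map (starRingEnd ℂ), ?_, ?_, ?_⟩
  · simp only [h1, Multiset.map_map]
    rfl
  · intro k z hz
    obtain ⟨y, hy, rfl⟩ := Multiset.mem_map.1 hz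
    rw [Complex.norm_conj]
    exact h2 k y hy
  · intro κ _ _ φ e hk hc
    have h4 := congrArg (starRingEnd ℂ) (h3 κ φ e hk hc)
    simp only [map_mul, map_sub, map_pow, map_one, map_natCast, map_sum, map_neg,
      map_multiset_sum, Multiset.map_map] at h4
    rw [h4]
    congr 1
    refine Finset.sum_congr rfl fun k _ => ?_
    rw [Multiset.map_map]
    congr 2
    refine Multiset.map_congr rfl fun z _ => ?_
    simp

theorem prod_real (hi : i ≤ 2 * d) {w : HeightOneSpectrum (𝓞 F)} {α : Fin N → ℂ}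
    (h : IsFrobenius X d i w α) (y : ℝ) : (∏ j, (1 - α j * (y : ℂ))).im = 0 := by
  have h1 := frob_unique hi h (frob_conj h) (y : ℂ)
  have h2 : (starRingEnd ℂ) (∏ j, (1 - α j * (y : ℂ))) = ∏ j, (1 - α j * (y : ℂ)) := by
    rw [map_prod]
    rw [h1]
    refine Finset.prod_congr rfl fun j _ => ?_
    simp
  exact Complex.conj_eq_iff_im.1 h2

/-- the Euler factor is positive on the real axis -/
theorem prod_pos (hi : i ≤ 2 * d) {w : HeightOneSpectrum (𝓞 F)} {α : Fin N → ℂ}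
    (h : IsFrobenius X d i w α) {x : ℝ} (hx : (i : ℝ) / 2 < x) :
    0 < (∏ j, (1 - α j * (((Ideal.absNorm w.asIdeal : ℝ) ^ (-x) : ℝ) : ℂ))).re := by
  set y : ℝ := (Ideal.absNorm w.asIdeal : ℝ) ^ (-x) with hy
  have hq := one_lt_q w
  have hq0 : (0 : ℝ) < (Ideal.absNorm w.asIdeal : ℝ) := by linarith
  have hy0 : 0 < y := Real.rpow_pos_of_pos hq0 _
  have hlt : ∀ j, ‖α j‖ * y < 1 := by
    intro j
    rw [frob_norm h j, hy, ← Real.rpow_add hq0]
    exact Real.rpow_lt_one_of_one_lt_of_neg hq (by linarith)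
  let g : ℝ → ℝ := fun t => (∏ j, (1 - α j * ((t * y : ℝ) : ℂ))).re
  have hg : Continuous g := by
    apply Complex.continuous_re.comp
    refine continuous_finsetProd _ fun j _ => ?_
    fun_prop
  have hne : ∀ t ∈ Set.Icc (0 : ℝ) 1, g t ≠ 0 := by
    intro t ht h0
    have h1 := prod_real hi h (t * y)
    have h2 : (∏ j, (1 - α j * ((t * y : ℝ) : ℂ))) = 0 := Complex.ext h0 h1
    rw [Finset.prod_eq_zero_iff] at h2
    obtain ⟨j, -, hj⟩ := h2
    have h3 := congrArg (fun z : ℂ => ‖z‖) (sub_eq_zero.1 hj)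
    beta_reduce at h3
    rw [norm_one, norm_mul, Complex.norm_real, Real.norm_of_nonneg (mul_nonneg ht.1 hy0.le)] at h3
    have h4 := hlt j
    have h5 : ‖α j‖ * (t * y) ≤ ‖α j‖ * y :=
      mul_le_mul_of_nonneg_left (mul_le_of_le_one_left hy0.le ht.2) (norm_nonneg _)
    linarith
  have h0 : g 0 = 1 := by
    simp [g]
  have h1 : g 1 = (∏ j, (1 - α j * (y : ℂ))).re := by
    simp [g]
  rw [← h1]
  by_contra hcon
  push Not at hcon
  have h2 : (0 : ℝ) ∈ Set.Icc (g 1) (g 0) := ⟨hcon, by rw [h0]; exact zero_le_one⟩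
  obtain ⟨t, ht, ht0⟩ := intermediate_value_Icc' zero_le_one hg.continuousOn h2
  exact hne t ht ht0

/-- the systems with the factor `1` at the exceptional primes -/
def IsLoc (X : Set (MvPolynomial (Fin n) (𝓞 K₀))) (d i N : ℕ) {F : Type} [Field F]
    [NumberField F] [Algebra K₀ F] (S : Finset (HeightOneSpectrum (𝓞 F)))
    (B : HeightOneSpectrum (𝓞 F) → ℂ[X]) : Prop :=
  (∀ v ∉ S, ∃ α : Fin N → ℂ, IsFrobenius X d i v α ∧
    ∀ z : ℂ, (B v).eval z = ∏ j, (1 - α j * z)) ∧ ∀ v ∈ S, B v = 1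

theorem IsLoc.ae {S : Finset (HeightOneSpectrum (𝓞 F))} {B : HeightOneSpectrum (𝓞 F) → ℂ[X]}
    (h : IsLoc X d i N S B) : AE X d i N B := by
  unfold AE
  rw [eventually_cofinite]
  refine S.finite_toSet.subset fun v hv => ?_
  by_contra hv'
  exact hv (h.1 v hv')

theorem IsLoc.ev_ne {S : Finset (HeightOneSpectrum (𝓞 F))} {B : HeightOneSpectrum (𝓞 F) → ℂ[X]}
    (h : IsLoc X d i N S B) {s : ℂ} (hs : (i : ℝ) / 2 < s.re) (v : HeightOneSpectrum (𝓞 F)) :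
    ev B v s ≠ 0 := by
  by_cases hv : v ∈ S
  · unfold ev
    rw [h.2 v hv]
    simp
  · exact (ev_good (h.1 v hv) hs).1

theorem IsLoc.good {S : Finset (HeightOneSpectrum (𝓞 F))} {B : HeightOneSpectrum (𝓞 F) → ℂ[X]}
    (h : IsLoc X d i N S B) {s : ℂ} (hs : (i : ℝ) / 2 + 1 < s.re) : Good B s :=
  good_right h.ae hs (h.ev_ne (by linarith))

theorem IsLoc.ev_pos (hi : i ≤ 2 * d) {S : Finset (HeightOneSpectrum (𝓞 F))}
    {B : HeightOneSpectrum (𝓞 F) → ℂ[X]} (h : IsLoc X d i N S B) {x : ℝ} (hx : (i : ℝ) / 2 < x)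
    (v : HeightOneSpectrum (𝓞 F)) : ∃ y : ℝ, 0 < y ∧ ev B v (x : ℂ) = (y : ℂ) := by
  by_cases hv : v ∈ S
  · refine ⟨1, one_pos, ?_⟩
    unfold ev
    rw [h.2 v hv]
    simp
  · obtain ⟨α, hα, hB⟩ := h.1 v hv
    have h1 : ((Ideal.absNorm v.asIdeal : ℕ) : ℂ) ^ (-(x : ℂ)) =
        (((Ideal.absNorm v.asIdeal : ℝ) ^ (-x) : ℝ) : ℂ) := by
      rw [Complex.ofReal_cpow (Nat.cast_nonneg _)]
      push_cast
      rfl
    refine ⟨_, prod_pos hi hα hx, ?_⟩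
    unfold ev
    rw [hB, h1]
    exact Complex.ext rfl (prod_real hi hα _)

/-- **The L-function is positive on the real axis.** -/
theorem IsLoc.LFun_pos (hi : i ≤ 2 * d) {S : Finset (HeightOneSpectrum (𝓞 F))}
    {B : HeightOneSpectrum (𝓞 F) → ℂ[X]} (h : IsLoc X d i N S B) {x : ℝ}
    (hx : (i : ℝ) / 2 + 1 < x) : LFun B (x : ℂ) = (‖LFun B (x : ℂ)‖ : ℂ) := by
  have hg : Good B (x : ℂ) := h.good (by rw [Complex.ofReal_re]; exact hx)
  have h1 : ∀ w, el B w (x : ℂ) = (((el B w (x : ℂ)).re : ℝ) : ℂ) := by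
    intro w
    obtain ⟨y, hy, hy'⟩ := h.ev_pos hi (x := x) (by linarith) w
    unfold el
    rw [hy', ← Complex.ofReal_log hy.le, ← Complex.ofReal_neg, Complex.ofReal_re]
  have h2 : (∑' w, el B w (x : ℂ)) = (((∑' w, (el B w (x : ℂ)).re) : ℝ) : ℂ) := by
    rw [Complex.ofReal_tsum]
    exact tsum_congr h1
  rw [hg.LFun_exp, h2, ← Complex.ofReal_exp, Complex.norm_real, Real.norm_of_nonneg
    (Real.exp_pos _).le]

end

section
variable {K₀ K : Type} [Field K₀] [Field K] [NumberField K] [Algebra K₀ K] {n : ℕ}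
  {X : Set (MvPolynomial (Fin n) (𝓞 K₀))} {d i N : ℕ}

/-- local systems over extension fields -/
theorem exists_loc_up {B₀ : HeightOneSpectrum (𝓞 K) → ℂ[X]} (hB₀ : AE X d i N B₀)
    (F : Type) [Field F] [NumberField F] [Algebra K₀ F] [Algebra K F] [IsScalarTower K₀ K F] :
    ∃ (S : Finset (HeightOneSpectrum (𝓞 F))) (B : HeightOneSpectrum (𝓞 F) → ℂ[X]),
      IsLoc X d i N S B := by
  classical
  obtain ⟨B, hB, -⟩ := exists_es_up hB₀ F
  have h1 := hB.1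
  rw [eventually_cofinite] at h1
  refine ⟨h1.toFinset, fun v => if v ∈ h1.toFinset then 1 else B v, fun v hv => ?_, fun v hv => ?_⟩
  · rw [Set.Finite.mem_toFinset] at hv
    have h2 : ∃ α : Fin N → ℂ, IsFrobenius X d i v α ∧
        ∀ z : ℂ, (B v).eval z = ∏ j, (1 - α j * z) := by
      by_contra hcon
      exact hv hcon
    beta_reduce
    rw [if_neg (by rw [Set.Finite.mem_toFinset]; exact hv)]
    exact h2
  · beta_reduce
    rw [if_pos hv]

theorem tends_log : Tendsto (fun ε : ℝ => Real.log ε) (𝓝[>] 0) atBot :=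
  Real.tendsto_log_nhdsGT_zero

/-- **The logarithms in a relation.** -/
theorem log_rel {ι : Type} [Fintype ι] {Y : ι → Ext K} [∀ j, Algebra K₀ (Y j).F]
    [∀ j, IsScalarTower K₀ K (Y j).F]
    {n : ι → ℤ} {m : ℤ} (h : ∀ σ : GK K, ∑ j, n j * (fixn K (Y j).F σ : ℤ) = m)
    (hi : i ≤ 2 * d) {S₀ : Finset (HeightOneSpectrum (𝓞 K))}
    {B₀ : HeightOneSpectrum (𝓞 K) → ℂ[X]} (hB₀ : IsLoc X d i N S₀ B₀)
    {T : ∀ j, Finset (HeightOneSpectrum (𝓞 (Y j).F))}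
    {B : ∀ j, HeightOneSpectrum (𝓞 (Y j).F) → ℂ[X]} (hB : ∀ j, IsLoc X d i N (T j) (B j)) :
    ∃ ℓ : ℝ, Tendsto (fun ε : ℝ => m * Real.log ‖LFun B₀ ((i : ℂ) / 2 + 1 + ε)‖ -
      ∑ j, n j * Real.log ‖LFun (B j) ((i : ℂ) / 2 + 1 + ε)‖) (𝓝[>] 0) (𝓝 ℓ) := by
  obtain ⟨S, hS⟩ := sys_pow_good h hi hB₀.ae (fun j => (hB j).ae)
  have hed : (i : ℝ) / 2 < (ed i).re := by rw [ed_re]; linarith
  have hRF := RF_analytic n m S (fun w => hB₀.ev_ne hed w) (fun j w => (hB j).ev_ne hed w)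
  have ht := tends_ed i
  have hgood : ∀ᶠ s in 𝓝[{s : ℂ | (i : ℝ) / 2 + 1 < s.re}] (ed i),
      Good B₀ s ∧ ∀ j, Good (B j) s := by
    filter_upwards [self_mem_nhdsWithin] with s c
    exact ⟨hB₀.good c, fun j => (hB j).good c⟩
  have h3 : Tendsto (fun ε : ℝ => Real.log ‖RF n m B₀ B S ((i : ℂ) / 2 + 1 + ε)‖) (𝓝[>] 0)
      (𝓝 (Real.log ‖RF n m B₀ B S (ed i)‖)) :=
    ((hRF.1.continuousAt.tendsto.comp (ht.mono_right nhdsWithin_le_nhds)).norm).log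
      (norm_ne_zero_iff.2 hRF.2)
  refine ⟨_, h3.congr' ?_⟩
  filter_upwards [ht.eventually hgood,
    (hRF.1.continuousAt.tendsto.comp (ht.mono_right nhdsWithin_le_nhds)).eventually_ne hRF.2]
    with ε hε hR
  have h5 := congrArg (fun z : ℂ => Real.log ‖z‖) (hS _ hε.1 hε.2)
  beta_reduce at h5
  have hR' : ‖RF n m B₀ B S ((i : ℂ) / 2 + 1 + ε)‖ ≠ 0 := norm_ne_zero_iff.2 hR
  have hP : ‖∏ j, LFun (B j) ((i : ℂ) / 2 + 1 + ε) ^ (n j)‖ ≠ 0 := by
    rw [norm_ne_zero_iff]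
    exact Finset.prod_ne_zero_iff.2 fun j _ => zpow_ne_zero _ (hε.2 j).ne_zero
  rw [norm_mul, Real.log_mul hR' hP, norm_zpow, Real.log_zpow, norm_prod,
    Real.log_prod (fun j _ => norm_ne_zero_iff.2 (zpow_ne_zero _ (hε.2 j).ne_zero))] at h5
  simp only [norm_zpow, Real.log_zpow] at h5
  rw [h5]
  ring

/-- the pole of order `r` along the real axis -/
def RealPole (i : ℕ) {F : Type} [Field F] [NumberField F] (B : HeightOneSpectrum (𝓞 F) → ℂ[X])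
    (r : ℕ) : Prop :=
  ∃ c : ℂ, c ≠ 0 ∧ Tendsto (fun ε : ℝ => (ε : ℂ) ^ r * LFun B ((i : ℂ) / 2 + 1 + ε)) (𝓝[>] 0) (𝓝 c)

theorem realPole_iff (hi : i ≤ 2 * d) {S₀ : Finset (HeightOneSpectrum (𝓞 K))}
    {B₀ : HeightOneSpectrum (𝓞 K) → ℂ[X]} (hB₀ : IsLoc X d i N S₀ B₀) (r : ℕ) :
    RealPole i B₀ r ↔ ∃ ℓ : ℝ, Tendsto (fun ε : ℝ =>
      Real.log ‖LFun B₀ ((i : ℂ) / 2 + 1 + ε)‖ + r * Real.log ε) (𝓝[>] 0) (𝓝 ℓ) := by
  have hpos : ∀ ε : ℝ, 0 < ε → LFun B₀ ((i : ℂ) / 2 + 1 + ε) ≠ 0 ∧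
      LFun B₀ ((i : ℂ) / 2 + 1 + ε) = (‖LFun B₀ ((i : ℂ) / 2 + 1 + ε)‖ : ℂ) := by
    intro ε hε
    have h1 : ((i : ℂ) / 2 + 1 + ε) = (((i : ℝ) / 2 + 1 + ε : ℝ) : ℂ) := by push_cast; rfl
    rw [h1]
    refine ⟨(hB₀.good ?_).ne_zero, hB₀.LFun_pos hi (by linarith)⟩
    rw [Complex.ofReal_re]
    linarith
  constructor
  · rintro ⟨c, hc, h⟩
    refine ⟨Real.log ‖c‖, (h.norm.log (norm_ne_zero_iff.2 hc)).congr' ?_⟩
    filter_upwards [self_mem_nhdsWithin] with ε hε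
    have hε' : (0 : ℝ) < ε := hε
    rw [norm_mul, norm_pow, Complex.norm_real, Real.norm_of_nonneg hε'.le, Real.log_mul
      (pow_ne_zero _ hε'.ne') (norm_ne_zero_iff.2 (hpos ε hε').1), Real.log_pow, add_comm]
  · rintro ⟨ℓ, h⟩
    refine ⟨((Real.exp ℓ : ℝ) : ℂ), by exact_mod_cast (Real.exp_pos ℓ).ne', ?_⟩
    have h1 : Tendsto (fun ε : ℝ => ((Real.exp (Real.log ‖LFun B₀ ((i : ℂ) / 2 + 1 + ε)‖ +
        r * Real.log ε) : ℝ) : ℂ)) (𝓝[>] 0) (𝓝 ((Real.exp ℓ : ℝ) : ℂ)) :=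
      (Complex.continuous_ofReal.tendsto _).comp ((Real.continuous_exp.tendsto _).comp h)
    refine h1.congr' ?_
    filter_upwards [self_mem_nhdsWithin] with ε hε
    have hε' : (0 : ℝ) < ε := hε
    obtain ⟨h2, h3⟩ := hpos ε hε'
    rw [Real.exp_add, Real.exp_log (norm_pos_iff.2 h2), ← Real.log_pow, Real.exp_log
      (pow_pos hε' _), Complex.ofReal_mul, ← h3, Complex.ofReal_pow, mul_comm]

end

section
variable {K : Type} [Field K] [NumberField K] {n : ℕ} {X : Set (MvPolynomial (Fin n) (𝓞 K))}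
  {d i N : ℕ} {V : Type} [AddCommGroup V] [Module ℚ V] {ρ : Representation ℚ (GK K) V}

/-- **The law for the poles along the real axis.** -/
theorem law_real (hi : i ≤ 2 * d)
    (hV : ∀ N : IntermediateField K (AlgebraicClosure K), FiniteDimensional K N →
      FiniteDimensional ℚ (fixV ρ N.val)) :
    IsLaw (K := K) (fun F _ _ _ t => t ≠ 0 → ∀ (S : Finset (HeightOneSpectrum (𝓞 F)))
      (B : HeightOneSpectrum (𝓞 F) → ℂ[X]), IsLoc X d i N S B → RealPole i B (rk ρ F)) := by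
  apply isLaw_of_exact
  intro F _ _ _ ι _ Y _ _ nn m hrel hm hj S₀ B₀ hB₀
  choose T B hB using fun j => exists_loc_up (K := F) hB₀.ae (Y j).F
  obtain ⟨ℓ₀, h1⟩ := log_rel hrel hi hB₀ hB
  choose ℓ h2 using fun j => (realPole_iff hi (hB j) _).1 (hj j (T j) (B j) (hB j))
  rw [realPole_iff hi hB₀]
  have h3 : Tendsto (fun ε : ℝ => ∑ j, (nn j : ℝ) *
      (Real.log ‖LFun (B j) ((i : ℂ) / 2 + 1 + ε)‖ + (rk ρ (Y j).F : ℝ) * Real.log ε)) (𝓝[>] 0)
      (𝓝 (∑ j, (nn j : ℝ) * ℓ j)) := tendsto_finsetSum _ fun j _ => (h2 j).const_mul _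
  have h4 := rank_relation_up ρ hrel hV
  have h5 : ∑ j, (nn j : ℝ) * (rk ρ (Y j).F : ℝ) = m * (rk ρ F : ℝ) := by
    exact_mod_cast h4
  have hm' : (m : ℝ) ≠ 0 := by exact_mod_cast hm
  refine ⟨_, ((h1.add h3).const_mul (m : ℝ)⁻¹).congr fun ε => ?_⟩
  have h6 : ∑ j, (nn j : ℝ) * (Real.log ‖LFun (B j) ((i : ℂ) / 2 + 1 + ε)‖ +
      (rk ρ (Y j).F : ℝ) * Real.log ε) = ∑ j, (nn j : ℝ) *
      Real.log ‖LFun (B j) ((i : ℂ) / 2 + 1 + ε)‖ + m * (rk ρ F : ℝ) * Real.log ε := by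
    rw [← h5, Finset.sum_mul, ← Finset.sum_add_distrib]
    exact Finset.sum_congr rfl fun j _ => by ring
  rw [h6]
  field_simp
  ring

end

end Pool.Agent.Q5.WL
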